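import Pool.Agent.H.MP_0e3175_co.C

namespace Pool.Agent.Results.MP_0e3175_co.Class

open Pool.Agent.H.MP_0e3175_co

theorem result (k : ℕ) (hk : 1 ≤ k) (f : (Fin (2 * k) → ZMod 2) → ZMod 2) :
    Bent k f ↔ ∃ (a b : Fin (2 * k) → ZMod 2) (c : ZMod 2), ∑ i, a i = 0 ∧
      ∀ x, f x = (∑ i, ∑ j, if i < j then x i * x j else 0) + (∑ i, a i * x i) * (∑ i, x i) +
        ∑ i, b i * x i + c :=
  main hk f

end Pool.Agent.Results.MP_0e3175_co.Class
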